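import Mathlib
import Pool.Agent.TH407.MZ.Defs
set_option autoImplicit false

/-!
# MZ-12 (job 3031, helper407, MP_6cbfb8_an): the restricted estimate for the zone
-/

namespace Pool.Agent.TH365.MZ

open MeasureTheory Set Complex
open scoped ENNReal NNReal Real ComplexConjugate
open Pool.Agent.TH407.AR hiding sq
open Pool.Agent.TH407.MV (dt)
open Pool.Agent.TH407.MZ

/-- the square of the norm -/
noncomputable def W (b : ℝ → ℝ → ℂ) : ℝ≥0∞ := ∫⁻ s : ℝ, ∫⁻ θ in Ioo (-π) π, ‖b s θ‖ₑ ^ 2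

theorem W_swap {b : ℝ → ℝ → ℂ} (hb : Measurable (Function.uncurry b)) :
    W b = ∫⁻ θ in Ioo (-π) π, ∫⁻ s : ℝ, ‖b s θ‖ₑ ^ 2 := by
  unfold W
  rw [lintegral_lintegral_swap]
  exact (hb.enorm.pow_const 2).aemeasurable

theorem interp {α : Type*} [MeasurableSpace α] (μ : Measure α) (q : ℝ) (hq2 : 2 ≤ q) (hq4 : q ≤ 4)
    (u : α → ℂ) (hu : Measurable u) :
    ∫⁻ X, ‖u X‖ₑ ^ q ∂μ ≤
      (∫⁻ X, ‖u X‖ₑ ^ 2 ∂μ) ^ ((4 - q) / 2) * (∫⁻ X, ‖u X‖ₑ ^ 4 ∂μ) ^ ((q - 2) / 2) := by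
  refine le_trans (le_of_eq ?_) (ENNReal.lintegral_mul_norm_pow_le
    (hu.enorm.pow_const 2).aemeasurable (hu.enorm.pow_const 4).aemeasurable
    (p := (4 - q) / 2) (q := (q - 2) / 2) (by linarith) (by linarith) (by ring))
  refine lintegral_congr fun X => ?_
  rw [← ENNReal.rpow_natCast, ← ENNReal.rpow_natCast, ← ENNReal.rpow_mul, ← ENNReal.rpow_mul,
    ← ENNReal.rpow_add_of_nonneg _ _ (by push_cast; linarith) (by push_cast; linarith)]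
  congr 1
  push_cast
  ring

theorem meas_etz : Measurable etz := by
  have h : Continuous Real.smoothTransition := Real.smoothTransition.continuous
  unfold etz
  exact ((h.comp (by fun_prop)).mul (h.comp (by fun_prop))).measurable

theorem meas_nz : Measurable nz := by
  unfold nz
  fun_prop

theorem meas_EZ {a : ℝ → ℝ → ℂ} (ha : Measurable (Function.uncurry a)) :
    Measurable (fun ξ : (ℝ × ℝ) × ℝ => EZ a ξ.1 ξ.2) := by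
  have h : StronglyMeasurable (Function.uncurry (fun (ξ : (ℝ × ℝ) × ℝ) (p : ℝ × ℝ) =>
      cexp (-(I * ((√(1 - (p.1 - 1 / 2) ^ 2) * dt ξ.1 p.2 + (p.1 - 1 / 2) * ξ.2 : ℝ) : ℂ))) *
    ((etz (p.1 - 1 / 2) : ℂ) * a p.1 p.2))) := by
    refine Measurable.stronglyMeasurable ?_
    refine Measurable.mul ?_ (Measurable.mul ?_ (ha.comp measurable_snd))
    · refine Complex.continuous_exp.measurable.comp
        ((measurable_const.mul (Complex.measurable_ofReal.comp ?_)).neg)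
      unfold dt
      fun_prop
    · refine Complex.measurable_ofReal.comp (meas_etz.comp ?_)
      fun_prop
  have : SFinite mZ := by
    unfold mZ
    infer_instance
  exact (h.integral_prod_right (ν := mZ)).measurable

theorem EZ_add {b c : ℝ → ℝ → ℂ}
    (hb : Integrable (fun p : ℝ × ℝ => (etz (p.1 - 1 / 2) : ℂ) * b p.1 p.2) mZ)
    (hc : Integrable (fun p : ℝ × ℝ => (etz (p.1 - 1 / 2) : ℂ) * c p.1 p.2) mZ)
    (X : ℝ × ℝ) (t : ℝ) : EZ (fun s θ => b s θ + c s θ) X t = EZ b X t + EZ c X t := by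
  have hbd : ∀ f : ℝ × ℝ → ℂ, Integrable f mZ → Integrable (fun p : ℝ × ℝ =>
      cexp (-(I * ((√(1 - (p.1 - 1 / 2) ^ 2) * dt X p.2 + (p.1 - 1 / 2) * t : ℝ) : ℂ))) * f p) mZ := by
    intro f hf
    refine hf.bdd_mul (c := 1) ?_ (ae_of_all _ fun x => ?_)
    · refine Measurable.aestronglyMeasurable ?_
      refine Complex.continuous_exp.measurable.comp
        ((measurable_const.mul (Complex.measurable_ofReal.comp ?_)).neg)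
      unfold dt
      fun_prop
    · rw [Complex.norm_exp]
      simp
  unfold EZ
  rw [← integral_add (hbd _ hb) (hbd _ hc)]
  refine integral_congr_ae (ae_of_all _ fun x => ?_)
  simp only
  ring

/-- the bounds of `BallZ` -/
def FE (C : ℝ≥0) : Prop :=
  ∀ b : ℝ → ℝ → ℂ, Measurable (Function.uncurry b) → W b ≠ ∞ →
    Integrable (fun p : ℝ × ℝ => (etz (p.1 - 1 / 2) : ℂ) * b p.1 p.2) mZ ∧
    (∀ X t, ‖EZ b X t‖ₑ ^ 2 ≤ C * W b) ∧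
    ∀ l : ℝ, 1 ≤ l → ∫⁻ ξ in {ξ : (ℝ × ℝ) × ℝ | nz ξ ≤ l}, ‖EZ b ξ.1 ξ.2‖ₑ ^ 2 ≤
      C * ENNReal.ofReal l * W b

/-- the shells -/
def SS (l : ℝ) : Set ((ℝ × ℝ) × ℝ) := {ξ : (ℝ × ℝ) × ℝ | l ≤ nz ξ ∧ nz ξ ≤ 2 * l}

theorem SS_sub (l : ℝ) : SS l ⊆ {ξ : (ℝ × ℝ) × ℝ | nz ξ ≤ 2 * l} := fun _ h => h.2

theorem sub_le (C : ℝ≥0) (h3 : FE C) {b : ℝ → ℝ → ℂ}
    (hb : Measurable (Function.uncurry b)) (hW : W b ≠ ∞) (l : ℝ) (hl : 1 ≤ l) :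
    ∫⁻ ξ in SS l, ‖EZ b ξ.1 ξ.2‖ₑ ^ 2 ≤ C * ENNReal.ofReal (2 * l) * W b :=
  (lintegral_mono_set (SS_sub l)).trans ((h3 b hb hW).2.2 (2 * l) (by linarith))

/-- bound on a shell from `L²` and `L^∞` -/
theorem fixed (C : ℝ≥0) (h3 : FE C) (q : ℝ) (hq : 2 ≤ q) {b : ℝ → ℝ → ℂ}
    (hb : Measurable (Function.uncurry b)) (hW : W b ≠ ∞) (l : ℝ) (hl : 1 ≤ l) :
    ∫⁻ ξ in SS l, ‖EZ b ξ.1 ξ.2‖ₑ ^ q ≤
      ((C : ℝ≥0∞) ^ ((q - 2) / 2) * C) * ENNReal.ofReal (2 * l) * (W b ^ ((q - 2) / 2) * W b) := by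
  obtain ⟨_, h5, _⟩ := h3 b hb hW
  have h4 := sub_le C h3 hb hW l hl
  have hCW : (C : ℝ≥0∞) * W b ≠ ∞ := ENNReal.mul_ne_top ENNReal.coe_ne_top hW
  have h6 : ∀ ξ : (ℝ × ℝ) × ℝ, ‖EZ b ξ.1 ξ.2‖ₑ ^ q ≤ (C * W b) ^ ((q - 2) / 2) *
      ‖EZ b ξ.1 ξ.2‖ₑ ^ 2 := by
    intro ξ
    have e : ‖EZ b ξ.1 ξ.2‖ₑ ^ q = (‖EZ b ξ.1 ξ.2‖ₑ ^ 2) ^ ((q - 2) / 2) *
        ‖EZ b ξ.1 ξ.2‖ₑ ^ 2 := by
      rw [← ENNReal.rpow_natCast, ← ENNReal.rpow_mul, ← ENNReal.rpow_add_of_nonneg _ _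
        (by push_cast; linarith) (by norm_num)]
      congr 1
      push_cast
      ring
    rw [e]
    exact mul_le_mul' (ENNReal.rpow_le_rpow (h5 ξ.1 ξ.2) (by linarith)) le_rfl
  calc ∫⁻ ξ in SS l, ‖EZ b ξ.1 ξ.2‖ₑ ^ q
      ≤ ∫⁻ ξ in SS l, (C * W b) ^ ((q - 2) / 2) * ‖EZ b ξ.1 ξ.2‖ₑ ^ 2 := lintegral_mono h6
    _ = (C * W b) ^ ((q - 2) / 2) * ∫⁻ ξ in SS l, ‖EZ b ξ.1 ξ.2‖ₑ ^ 2 := by
        rw [lintegral_const_mul' _ _ (ENNReal.rpow_ne_top_of_nonneg (by linarith) hCW)]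
    _ ≤ (C * W b) ^ ((q - 2) / 2) * (C * ENNReal.ofReal (2 * l) * W b) := mul_le_mul' le_rfl h4
    _ = _ := by
        rw [ENNReal.mul_rpow_of_nonneg _ _ (by linarith)]
        ring

theorem W_le {a : ℝ → ℝ → ℂ} {M : ℝ → ℝ≥0} (ha : Adm a M) :
    W a ≤ ∫⁻ θ in Ioo (-π) π, (M θ : ℝ≥0∞) ^ 2 := by
  rw [W_swap ha.ma]
  refine lintegral_mono fun θ => ?_
  calc ∫⁻ s : ℝ, ‖a s θ‖ₑ ^ 2 ≤ ∫⁻ s : ℝ, (Icc (0 : ℝ) 1).indicator (fun _ => (M θ : ℝ≥0∞) ^ 2) s := by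
        refine lintegral_mono fun s => ?_
        by_cases hs : s ∈ Icc (0 : ℝ) 1
        · rw [indicator_of_mem hs]
          exact pow_le_pow_left' (ha.bd s θ) 2
        · rw [ha.supp s θ hs]
          simp
    _ = (M θ : ℝ≥0∞) ^ 2 := by
        rw [lintegral_indicator measurableSet_Icc, setLIntegral_const, Real.volume_Icc]
        simp

theorem N_le {M : ℝ → ℝ≥0} {B : ℝ≥0} (hMB : ∀ θ, M θ ≤ B) :
    ∫⁻ θ in Ioo (-π) π, (M θ : ℝ≥0∞) ^ 2 ≤ ENNReal.ofReal (2 * π) * (B : ℝ≥0∞) ^ 2 := by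
  calc ∫⁻ θ in Ioo (-π) π, (M θ : ℝ≥0∞) ^ 2 ≤ ∫⁻ θ in Ioo (-π) π, (B : ℝ≥0∞) ^ 2 := by
        refine lintegral_mono fun θ => ?_
        exact pow_le_pow_left' (ENNReal.coe_le_coe.mpr (hMB θ)) 2
    _ = _ := by
        rw [setLIntegral_const, Real.volume_Ioo, mul_comm]
        congr 2
        ring

theorem exists_const (h1 : FourierFacts) (h2 : LowZ) (Cf : ℝ≥0)
    (h3 : FE Cf) (q : ℝ) (hq : 3 < q)
    (hq4 : q ≤ 7 / 2) : ∃ K : ℝ≥0∞, K ≠ ∞ ∧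
      ∀ (a : ℝ → ℝ → ℂ) (M : ℝ → ℝ≥0) (B : ℝ≥0), Adm a M →
      (∀ θ, M θ ≤ B) → ∀ l : ℝ, 1 ≤ l → ∫⁻ ξ in SS l, ‖EZ a ξ.1 ξ.2‖ₑ ^ q ≤
        K * ENNReal.ofReal (l ^ (-((q - 3) / 2))) * ((B : ℝ≥0∞) ^ (q - 2) *
          ∫⁻ θ in Ioo (-π) π, (M θ : ℝ≥0∞) ^ 2) := by
  have hq2 : 0 < q - 2 := by linarith
  obtain ⟨C, hC⟩ := h2 ((q - 3) / (q - 2)) (div_pos (by linarith) hq2)
    (by rw [div_le_iff₀ hq2]; linarith)
  set γ : ℝ := (q - 3) / 2 with hγ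
  -- constants
  set P : ℝ≥0∞ := ENNReal.ofReal (2 * π) ^ ((q - 2) / 2) with hP
  have hPt : P ≠ ∞ := ENNReal.rpow_ne_top_of_nonneg (by linarith) ENNReal.ofReal_ne_top
  set A1 : ℝ≥0∞ := (Cf : ℝ≥0∞) ^ ((4 - q) / 2) * (C : ℝ≥0∞) ^ ((q - 2) / 2) *
    ENNReal.ofReal (2 ^ ((4 - q) / 2)) with hA1
  have hA1t : A1 ≠ ∞ := ENNReal.mul_ne_top (ENNReal.mul_ne_top
    (ENNReal.rpow_ne_top_of_nonneg (by linarith) ENNReal.coe_ne_top)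
    (ENNReal.rpow_ne_top_of_nonneg (by linarith) ENNReal.coe_ne_top)) ENNReal.ofReal_ne_top
  set D : ℝ≥0∞ := (Cf : ℝ≥0∞) ^ ((q - 2) / 2) * Cf with hD
  have hDt : D ≠ ∞ := ENNReal.mul_ne_top
    (ENNReal.rpow_ne_top_of_nonneg (by linarith) ENNReal.coe_ne_top) ENNReal.coe_ne_top
  set A2 : ℝ≥0∞ := D * P * ENNReal.ofReal (24 * 12 ^ ((q - 2) / 2)) with hA2
  have hA2t : A2 ≠ ∞ := ENNReal.mul_ne_top (ENNReal.mul_ne_top hDt hPt)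
    ENNReal.ofReal_ne_top
  have h2t : (2 : ℝ≥0∞) ^ (q - 1) ≠ ∞ := ENNReal.rpow_ne_top_of_nonneg (by linarith) (by norm_num)
  refine ⟨(2 : ℝ≥0∞) ^ (q - 1) * (A1 + A2), ?_, ?_⟩
  · exact ENNReal.mul_ne_top h2t (ENNReal.add_ne_top.mpr ⟨hA1t, hA2t⟩)
  intro a M B ha hMB l hl
  have hl0 : 0 < l := by linarith
  have hWa := W_le ha
  have hNB := N_le (M := M) (B := B) hMB
  set N : ℝ≥0∞ := ∫⁻ θ in Ioo (-π) π, (M θ : ℝ≥0∞) ^ 2 with hN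
  have hNt : N ≠ ∞ := ne_top_of_le_ne_top (ENNReal.mul_ne_top ENNReal.ofReal_ne_top
    (ENNReal.pow_ne_top ENNReal.coe_ne_top)) hNB
  have hB2 : ((B : ℝ≥0∞) ^ 2) ^ ((q - 2) / 2) = (B : ℝ≥0∞) ^ (q - 2) := by
    rw [← ENNReal.rpow_natCast, ← ENNReal.rpow_mul]
    congr 1
    push_cast
    ring
  have hNp : N ^ ((q - 2) / 2) ≤ P * (B : ℝ≥0∞) ^ (q - 2) := by
    calc N ^ ((q - 2) / 2) ≤ (ENNReal.ofReal (2 * π) * (B : ℝ≥0∞) ^ 2) ^ ((q - 2) / 2) :=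
          ENNReal.rpow_le_rpow hNB (by linarith)
      _ = _ := by rw [ENNReal.mul_rpow_of_nonneg _ _ (by linarith), hB2]
  obtain ⟨_, _, hT⟩ := h1 a M ha
  obtain ⟨f1, f2, f3⟩ := hT (l / 2) (by linarith)
  set b1 := aT a (l / 2) with hb1
  set b2 : ℝ → ℝ → ℂ := fun s θ => a s θ - b1 s θ with hb2
  have hb2m : Measurable (Function.uncurry b2) := ha.ma.sub f1
  have hW1 : W b1 ≤ N := by
    rw [W_swap f1]
    exact lintegral_mono fun θ => f2 θ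
  have hW2 : W b2 ≤ N * ENNReal.ofReal (6 / (l / 2)) := by
    rw [W_swap hb2m, hN, ← lintegral_mul_const' _ _ ENNReal.ofReal_ne_top]
    exact lintegral_mono fun θ => f3 θ
  have hW1t : W b1 ≠ ∞ := ne_top_of_le_ne_top hNt hW1
  have hW2t : W b2 ≠ ∞ := ne_top_of_le_ne_top (ENNReal.mul_ne_top hNt ENNReal.ofReal_ne_top) hW2
  have g1 := h3 b1 f1 hW1t
  have g2 := h3 b2 hb2m hW2t
  have hadd : ∀ ξ : (ℝ × ℝ) × ℝ, EZ a ξ.1 ξ.2 = EZ b1 ξ.1 ξ.2 + EZ b2 ξ.1 ξ.2 := by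
    intro ξ
    rw [← EZ_add g1.1 g2.1]
    congr 1
    funext s θ
    simp only [hb2]
    ring
  -- first part
  have i1 : ∫⁻ ξ in SS l, ‖EZ b1 ξ.1 ξ.2‖ₑ ^ q ≤
      A1 * ENNReal.ofReal (l ^ (-γ)) * ((B : ℝ≥0∞) ^ (q - 2) * N) := by
    have h4 := hC a M B ha hMB l hl
    have hNN : N = N ^ ((4 - q) / 2) * N ^ ((q - 2) / 2) := by
      rw [← ENNReal.rpow_add_of_nonneg _ _ (by linarith) (by linarith)]
      rw [show (4 - q) / 2 + (q - 2) / 2 = 1 by ring, ENNReal.rpow_one]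
    have hTp : ENNReal.ofReal (2 * l) ^ ((4 - q) / 2) *
        ENNReal.ofReal (l ^ (-1 + (q - 3) / (q - 2))) ^ ((q - 2) / 2) =
        ENNReal.ofReal (2 ^ ((4 - q) / 2)) * ENNReal.ofReal (l ^ (-γ)) := by
      rw [ENNReal.ofReal_rpow_of_pos (by positivity), ENNReal.ofReal_rpow_of_pos (by positivity),
        ← ENNReal.ofReal_mul (by positivity), ← ENNReal.ofReal_mul (by positivity)]
      congr 1
      rw [← Real.rpow_mul hl0.le, Real.mul_rpow (by norm_num) hl0.le, mul_assoc,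
        ← Real.rpow_add hl0]
      congr 2
      rw [hγ]
      field_simp
      ring
    calc ∫⁻ ξ in SS l, ‖EZ b1 ξ.1 ξ.2‖ₑ ^ q
        ≤ (∫⁻ ξ in SS l, ‖EZ b1 ξ.1 ξ.2‖ₑ ^ 2) ^ ((4 - q) / 2) *
            (∫⁻ ξ in SS l, ‖EZ b1 ξ.1 ξ.2‖ₑ ^ 4) ^ ((q - 2) / 2) :=
          interp _ q (by linarith) (by linarith) _ (meas_EZ f1)
      _ ≤ ((Cf : ℝ≥0∞) * ENNReal.ofReal (2 * l) * N) ^ ((4 - q) / 2) *
            (C * ENNReal.ofReal (l ^ (-1 + (q - 3) / (q - 2))) * B ^ 2 * N) ^ ((q - 2) / 2) := by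
          apply mul_le_mul'
          · exact ENNReal.rpow_le_rpow ((sub_le Cf h3 f1 hW1t l hl).trans
              (mul_le_mul' le_rfl hW1)) (by linarith)
          · exact ENNReal.rpow_le_rpow h4 (by linarith)
      _ = (Cf : ℝ≥0∞) ^ ((4 - q) / 2) * (C : ℝ≥0∞) ^ ((q - 2) / 2) *
            (ENNReal.ofReal (2 * l) ^ ((4 - q) / 2) *
              ENNReal.ofReal (l ^ (-1 + (q - 3) / (q - 2))) ^ ((q - 2) / 2)) *
            ((B : ℝ≥0∞) ^ (q - 2) * (N ^ ((4 - q) / 2) * N ^ ((q - 2) / 2))) := by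
          rw [ENNReal.mul_rpow_of_nonneg _ _ (by linarith : 0 ≤ (4 - q) / 2),
            ENNReal.mul_rpow_of_nonneg _ _ (by linarith : 0 ≤ (4 - q) / 2),
            ENNReal.mul_rpow_of_nonneg _ _ (by linarith : 0 ≤ (q - 2) / 2),
            ENNReal.mul_rpow_of_nonneg _ _ (by linarith : 0 ≤ (q - 2) / 2),
            ENNReal.mul_rpow_of_nonneg _ _ (by linarith : 0 ≤ (q - 2) / 2), hB2]
          ring
      _ = _ := by
          rw [← hNN, hTp, hA1]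
          ring
  -- second part
  have i2 : ∫⁻ ξ in SS l, ‖EZ b2 ξ.1 ξ.2‖ₑ ^ q ≤
      A2 * ENNReal.ofReal (l ^ (-γ)) * ((B : ℝ≥0∞) ^ (q - 2) * N) := by
    have h4 := fixed Cf h3 q (by linarith) hb2m hW2t l hl
    have h5 : ENNReal.ofReal (2 * l) * (ENNReal.ofReal (6 / (l / 2)) ^ ((q - 2) / 2) *
        ENNReal.ofReal (6 / (l / 2))) ≤
        ENNReal.ofReal (24 * 12 ^ ((q - 2) / 2)) * ENNReal.ofReal (l ^ (-γ)) := by
      have h6 : (0 : ℝ) < 6 / (l / 2) := by positivity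
      rw [ENNReal.ofReal_rpow_of_pos h6, ← ENNReal.ofReal_mul (by positivity),
        ← ENNReal.ofReal_mul (by positivity), ← ENNReal.ofReal_mul (by positivity)]
      apply ENNReal.ofReal_le_ofReal
      have h7 : (6 / (l / 2) : ℝ) = 12 / l := by
        field_simp
        norm_num
      rw [h7, Real.div_rpow (by norm_num) hl0.le]
      have h8 : 2 * l * (12 ^ ((q - 2) / 2) / l ^ ((q - 2) / 2) * (12 / l)) =
          24 * 12 ^ ((q - 2) / 2) * (l ^ ((q - 2) / 2))⁻¹ := by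
        field_simp
        norm_num
      rw [h8, ← Real.rpow_neg hl0.le]
      refine mul_le_mul_of_nonneg_left (Real.rpow_le_rpow_of_exponent_le hl ?_) (by positivity)
      rw [hγ]; linarith
    calc ∫⁻ ξ in SS l, ‖EZ b2 ξ.1 ξ.2‖ₑ ^ q
        ≤ D * ENNReal.ofReal (2 * l) * (W b2 ^ ((q - 2) / 2) * W b2) := h4
      _ ≤ D * ENNReal.ofReal (2 * l) * ((N * ENNReal.ofReal (6 / (l / 2))) ^ ((q - 2) / 2) *
            (N * ENNReal.ofReal (6 / (l / 2)))) := by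
          exact mul_le_mul' le_rfl (mul_le_mul' (ENNReal.rpow_le_rpow hW2 (by linarith)) hW2)
      _ = D * (N ^ ((q - 2) / 2) * N) *
            (ENNReal.ofReal (2 * l) * (ENNReal.ofReal (6 / (l / 2)) ^ ((q - 2) / 2) *
              ENNReal.ofReal (6 / (l / 2)))) := by
          rw [ENNReal.mul_rpow_of_nonneg _ _ (by linarith)]
          ring
      _ ≤ D * (P * (B : ℝ≥0∞) ^ (q - 2) * N) *
            (ENNReal.ofReal (24 * 12 ^ ((q - 2) / 2)) * ENNReal.ofReal (l ^ (-γ))) := by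
          exact mul_le_mul' (mul_le_mul' le_rfl (mul_le_mul' hNp le_rfl)) h5
      _ = _ := by rw [hA2]; ring
  calc ∫⁻ ξ in SS l, ‖EZ a ξ.1 ξ.2‖ₑ ^ q
      ≤ ∫⁻ ξ in SS l, (2 : ℝ≥0∞) ^ (q - 1) * (‖EZ b1 ξ.1 ξ.2‖ₑ ^ q + ‖EZ b2 ξ.1 ξ.2‖ₑ ^ q) := by
        refine lintegral_mono fun ξ => ?_
        rw [hadd ξ]
        exact (ENNReal.rpow_le_rpow (enorm_add_le _ _) (by linarith)).trans
          (ENNReal.rpow_add_le_mul_rpow_add_rpow _ _ (by linarith))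
    _ = (2 : ℝ≥0∞) ^ (q - 1) * ((∫⁻ ξ in SS l, ‖EZ b1 ξ.1 ξ.2‖ₑ ^ q) +
          ∫⁻ ξ in SS l, ‖EZ b2 ξ.1 ξ.2‖ₑ ^ q) := by
        rw [lintegral_const_mul' _ _ h2t, lintegral_add_left]
        exact (meas_EZ f1).enorm.pow_const q
    _ ≤ (2 : ℝ≥0∞) ^ (q - 1) * (A1 * ENNReal.ofReal (l ^ (-γ)) * ((B : ℝ≥0∞) ^ (q - 2) * N) +
          A2 * ENNReal.ofReal (l ^ (-γ)) * ((B : ℝ≥0∞) ^ (q - 2) * N)) := by
        exact mul_le_mul' le_rfl (add_le_add i1 i2)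
    _ = _ := by ring

theorem cover : (⋃ n : ℕ, SS ((2 : ℝ) ^ n)) = univ := by
  rw [eq_univ_iff_forall]
  intro ξ
  rw [mem_iUnion]
  have h1 : 1 ≤ nz ξ := by
    unfold nz
    have := abs_nonneg ξ.1.1
    have := abs_nonneg ξ.1.2
    have := abs_nonneg ξ.2
    linarith
  obtain ⟨n, h2, h3⟩ := exists_nat_pow_near h1 one_lt_two
  refine ⟨n, h2, ?_⟩
  rw [pow_succ] at h3
  linarith

theorem restrZ_of (hG : Pool.Agent.TH407.AR.FourierFacts) (h10 : BallZ) (h11 : LowZ) : RestrZ := by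
  intro q hq
  obtain ⟨Cf, hCf⟩ := h10
  have h3 : FE Cf := fun b hb hW => hCf b hb hW
  set r : ℝ := min q (7 / 2) with hr
  have hr3 : 3 < r := lt_min hq (by norm_num)
  have hrq : r ≤ q := min_le_left _ _
  obtain ⟨K, hK, hb⟩ := exists_const hG h11 Cf h3 r hr3 (min_le_right _ _)
  set J : ℝ≥0∞ := ∑' n : ℕ, ENNReal.ofReal (((2 : ℝ) ^ n) ^ (-((r - 3) / 2))) with hJ
  have hJt : J ≠ ∞ := by
    have h1 : J = ∑' n : ℕ, ENNReal.ofReal ((2 : ℝ) ^ (-((r - 3) / 2))) ^ n := by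
      rw [hJ]
      congr 1
      funext n
      rw [← ENNReal.ofReal_pow (by positivity), ← Real.rpow_natCast, ← Real.rpow_natCast,
        ← Real.rpow_mul (by norm_num), ← Real.rpow_mul (by norm_num), mul_comm]
    rw [h1, ENNReal.tsum_geometric]
    refine ENNReal.inv_ne_top.2 ?_
    rw [Ne, tsub_eq_zero_iff_le, not_le, ENNReal.ofReal_lt_one]
    exact Real.rpow_lt_one_of_one_lt_of_neg one_lt_two (by linarith)
  set P : ℝ≥0∞ := ((Cf : ℝ≥0∞) * ENNReal.ofReal (2 * π)) ^ ((q - r) / 2) with hP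
  have hPt : P ≠ ∞ := ENNReal.rpow_ne_top_of_nonneg (by linarith)
    (ENNReal.mul_ne_top ENNReal.coe_ne_top ENNReal.ofReal_ne_top)
  refine ⟨(P * K * J).toNNReal, ?_⟩
  intro a M B ha hMB
  rw [ENNReal.coe_toNNReal (ENNReal.mul_ne_top (ENNReal.mul_ne_top hPt hK) hJt)]
  have hWa := W_le ha
  have hNB := N_le (M := M) (B := B) hMB
  set N : ℝ≥0∞ := ∫⁻ θ in Ioo (-π) π, (M θ : ℝ≥0∞) ^ 2 with hN
  have hNt : N ≠ ∞ := ne_top_of_le_ne_top (ENNReal.mul_ne_top ENNReal.ofReal_ne_top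
    (ENNReal.pow_ne_top ENNReal.coe_ne_top)) hNB
  obtain ⟨_, h5, _⟩ := h3 a ha.ma (ne_top_of_le_ne_top hNt hWa)
  have hpt : ∀ ξ : (ℝ × ℝ) × ℝ, ‖EZ a ξ.1 ξ.2‖ₑ ^ q ≤
      (P * (B : ℝ≥0∞) ^ (q - r)) * ‖EZ a ξ.1 ξ.2‖ₑ ^ r := by
    intro ξ
    have e : ‖EZ a ξ.1 ξ.2‖ₑ ^ q =
        (‖EZ a ξ.1 ξ.2‖ₑ ^ 2) ^ ((q - r) / 2) * ‖EZ a ξ.1 ξ.2‖ₑ ^ r := by
      rw [← ENNReal.rpow_natCast, ← ENNReal.rpow_mul, ← ENNReal.rpow_add_of_nonneg _ _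
        (by push_cast; linarith) (by linarith)]
      congr 1
      push_cast
      ring
    rw [e]
    refine mul_le_mul' ?_ le_rfl
    calc (‖EZ a ξ.1 ξ.2‖ₑ ^ 2) ^ ((q - r) / 2) ≤
          (((Cf : ℝ≥0∞) * ENNReal.ofReal (2 * π)) * (B : ℝ≥0∞) ^ 2) ^ ((q - r) / 2) := by
          refine ENNReal.rpow_le_rpow ((h5 ξ.1 ξ.2).trans ?_) (by linarith)
          rw [mul_assoc]
          exact mul_le_mul' le_rfl (hWa.trans hNB)
      _ = P * (B : ℝ≥0∞) ^ (q - r) := by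
          rw [ENNReal.mul_rpow_of_nonneg _ _ (by linarith), ← ENNReal.rpow_natCast (B : ℝ≥0∞) 2,
            ← ENNReal.rpow_mul]
          congr 2
          push_cast
          ring
  have hPB : P * (B : ℝ≥0∞) ^ (q - r) ≠ ∞ :=
    ENNReal.mul_ne_top hPt (ENNReal.rpow_ne_top_of_nonneg (by linarith) ENNReal.coe_ne_top)
  have hBr : (B : ℝ≥0∞) ^ (q - r) * (B : ℝ≥0∞) ^ (r - 2) = (B : ℝ≥0∞) ^ (q - 2) := by
    rw [← ENNReal.rpow_add_of_nonneg _ _ (by linarith) (by linarith)]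
    congr 1
    ring
  calc ∫⁻ ξ : (ℝ × ℝ) × ℝ, ‖EZ a ξ.1 ξ.2‖ₑ ^ q
      ≤ ∫⁻ ξ : (ℝ × ℝ) × ℝ, (P * (B : ℝ≥0∞) ^ (q - r)) * ‖EZ a ξ.1 ξ.2‖ₑ ^ r :=
        lintegral_mono hpt
    _ = (P * (B : ℝ≥0∞) ^ (q - r)) * ∫⁻ ξ : (ℝ × ℝ) × ℝ, ‖EZ a ξ.1 ξ.2‖ₑ ^ r := by
        rw [lintegral_const_mul' _ _ hPB]
    _ = (P * (B : ℝ≥0∞) ^ (q - r)) * ∫⁻ ξ in ⋃ n : ℕ, SS ((2 : ℝ) ^ n), ‖EZ a ξ.1 ξ.2‖ₑ ^ r := by
        rw [cover, Measure.restrict_univ]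
    _ ≤ (P * (B : ℝ≥0∞) ^ (q - r)) * ∑' n : ℕ,
          K * ENNReal.ofReal (((2 : ℝ) ^ n) ^ (-((r - 3) / 2))) * ((B : ℝ≥0∞) ^ (r - 2) * N) := by
        refine mul_le_mul' le_rfl ((lintegral_iUnion_le _ _).trans (ENNReal.tsum_le_tsum fun n => ?_))
        exact hb a M B ha hMB ((2 : ℝ) ^ n) (one_le_pow₀ one_le_two)
    _ = (P * (B : ℝ≥0∞) ^ (q - r)) * (K * J * ((B : ℝ≥0∞) ^ (r - 2) * N)) := by
        rw [ENNReal.tsum_mul_right, ENNReal.tsum_mul_left]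
    _ = P * K * J * ((B : ℝ≥0∞) ^ (q - r) * (B : ℝ≥0∞) ^ (r - 2)) * N := by ring
    _ = _ := by rw [hBr]

end Pool.Agent.TH365.MZ
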